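import Mathlib

/-!
# The matrices of an irreducible group with scalar commutant span the matrix algebra
-/

set_option autoImplicit false

open Matrix

namespace Pool.Agent.N144.IR

section endo
variable {F : Type} [Field F] {V : Type} [AddCommGroup V] [Module F V] [FiniteDimensional F V]

/-- **Burnside's theorem** for irreducible algebras of operators with scalar commutant. -/
theorem end_top [Nontrivial V] (R : Subalgebra F (Module.End F V))
    (hirr : ∀ W : Submodule F V, (∀ r ∈ R, ∀ w ∈ W, r w ∈ W) → W = ⊥ ∨ W = ⊤)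
    (hcom : ∀ A : Module.End F V, (∀ r ∈ R, ∀ v, A (r v) = r (A v)) → ∃ c : F, ∀ v, A v = c • v) :
    R = ⊤ := by
  classical
  have hsimple : IsSimpleModule R V := by
    rw [isSimpleModule_iff]
    refine { exists_pair_ne := ⟨⊥, ⊤, bot_ne_top⟩, eq_bot_or_eq_top := fun W => ?_ }
    let W' : Submodule F V :=
      { carrier := W
        add_mem' := fun ha hb => W.add_mem ha hb
        zero_mem' := W.zero_mem
        smul_mem' := fun c x hx => by
          have h1 := W.smul_mem (algebraMap F R c) hx
          rwa [algebraMap_smul] at h1 }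
    rcases hirr W' (fun r hr w hw => W.smul_mem (⟨r, hr⟩ : R) hw) with h | h
    · left
      rw [eq_bot_iff]
      intro x hx
      have h1 : x ∈ W' := hx
      rw [h] at h1
      exact h1
    · right
      rw [eq_top_iff]
      intro x _
      have h1 : x ∈ W' := by rw [h]; exact Submodule.mem_top
      exact h1
  rw [eq_top_iff]
  rintro T -
  let f : Module.End (Module.End R V) V :=
    { toFun := T
      map_add' := map_add T
      map_smul' := fun g v => by
        let A : Module.End F V :=
          { toFun := g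
            map_add' := map_add g
            map_smul' := fun c x => by
              have h1 := g.map_smul (algebraMap F R c) x
              rwa [algebraMap_smul, algebraMap_smul] at h1 }
        obtain ⟨c, hc⟩ := hcom A (fun r hr v => g.map_smul (⟨r, hr⟩ : R) v)
        have hg : ∀ x, g x = c • x := hc
        change T (g v) = g (T v)
        rw [hg, hg, map_smul] }
  let b := Module.finBasis F V
  obtain ⟨r, hr⟩ := jacobson_density f (Finset.univ.image b)
  have h1 : T = r.1 := by
    refine b.ext fun i => ?_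
    exact hr (b i) (Finset.mem_image_of_mem _ (Finset.mem_univ i))
  rw [h1]
  exact r.2

end endo

section mat
variable {F : Type} [Field F] {N : ℕ} {G : Type} [Group G]

/-- The matrices of an irreducible group with scalar commutant span the matrix algebra. -/
theorem span_top (f : G →* Matrix (Fin N) (Fin N) F) (U : Subgroup G)
    (hirr : ∀ W : Submodule F (Fin N → F), (∀ σ ∈ U, ∀ w ∈ W, f σ *ᵥ w ∈ W) → W = ⊥ ∨ W = ⊤)
    (hcom : ∀ A : Matrix (Fin N) (Fin N) F, (∀ σ ∈ U, A * f σ = f σ * A) →
      ∃ c : F, A = c • (1 : Matrix (Fin N) (Fin N) F)) (hN : 0 < N) :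
    Submodule.span F (f '' (U : Set G)) = ⊤ := by
  classical
  haveI : Nonempty (Fin N) := ⟨⟨0, hN⟩⟩
  haveI : Nontrivial (Fin N → F) := Function.nontrivial
  -- the algebra generated by the group
  let R : Subalgebra F (Matrix (Fin N) (Fin N) F) :=
    { carrier := Submodule.span F (f '' (U : Set G))
      mul_mem' := by
        intro a b ha hb
        induction ha using Submodule.span_induction with
        | mem a ha =>
          obtain ⟨σ, hσ, rfl⟩ := ha
          induction hb using Submodule.span_induction with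
          | mem b hb =>
            obtain ⟨τ, hτ, rfl⟩ := hb
            exact Submodule.subset_span ⟨σ * τ, U.mul_mem hσ hτ, map_mul f σ τ⟩
          | zero => rw [mul_zero]; exact Submodule.zero_mem _
          | add x y _ _ hx hy => rw [mul_add]; exact Submodule.add_mem _ hx hy
          | smul r x _ hx => rw [mul_smul_comm]; exact Submodule.smul_mem _ _ hx
        | zero => rw [zero_mul]; exact Submodule.zero_mem _
        | add x y _ _ hx hy => rw [add_mul]; exact Submodule.add_mem _ hx hy
        | smul r x _ hx => rw [smul_mul_assoc]; exact Submodule.smul_mem _ _ hx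
      add_mem' := fun ha hb => Submodule.add_mem _ ha hb
      algebraMap_mem' := fun r => by
        rw [Algebra.algebraMap_eq_smul_one]
        exact Submodule.smul_mem _ _ (Submodule.subset_span ⟨1, U.one_mem, map_one f⟩) }
  let e : Matrix (Fin N) (Fin N) F ≃ₐ[F] Module.End F (Fin N → F) := toLinAlgEquiv'
  have hmemR : ∀ σ ∈ U, f σ ∈ R := fun σ hσ => Submodule.subset_span ⟨σ, hσ, rfl⟩
  have hap : ∀ (A : Matrix (Fin N) (Fin N) F) (v : Fin N → F), e A v = A *ᵥ v := fun A v =>
    toLinAlgEquiv'_apply A v
  have key : R.map e.toAlgHom = ⊤ := by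
    refine end_top _ (fun W hW => hirr W fun σ hσ w hw => ?_) fun A hA => ?_
    · have h1 := hW (e (f σ)) ⟨f σ, hmemR σ hσ, rfl⟩ w hw
      rwa [hap] at h1
    · obtain ⟨c, hc⟩ := hcom (e.symm A) fun σ hσ => by
        apply e.injective
        rw [map_mul, map_mul, AlgEquiv.apply_symm_apply]
        refine LinearMap.ext fun v => ?_
        exact hA (e (f σ)) ⟨f σ, hmemR σ hσ, rfl⟩ v
      refine ⟨c, fun v => ?_⟩
      have h1 : A = e (e.symm A) := (AlgEquiv.apply_symm_apply e A).symm
      rw [h1, hc, hap, smul_mulVec, one_mulVec]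
  rw [eq_top_iff]
  rintro A -
  have h1 : e A ∈ R.map e.toAlgHom := by rw [key]; exact Algebra.mem_top
  obtain ⟨B, hB, hBA⟩ := h1
  have h2 : B = A := e.injective hBA
  rw [← h2]
  exact hB

end mat

section nak
variable {ℓ : ℕ} [Fact ℓ.Prime] {N : ℕ} {G : Type} [Group G]

/-- Matrices over the `ℓ`-adic integers which span modulo `ℓ` span. -/
theorem span_padic (β : G →* Matrix (Fin N) (Fin N) ℤ_[ℓ]) (U : Subgroup G)
    (h : Submodule.span (ZMod ℓ) ((fun g => (β g).map (PadicInt.toZMod : ℤ_[ℓ] →+* ZMod ℓ)) ''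
      (U : Set G)) = ⊤) :
    Submodule.span ℤ_[ℓ] (β '' (U : Set G)) = ⊤ := by
  classical
  set N' := Submodule.span ℤ_[ℓ] (β '' (U : Set G)) with hN'
  set I : Ideal ℤ_[ℓ] := IsLocalRing.maximalIdeal ℤ_[ℓ] with hI
  have hlift : ∀ y ∈ Submodule.span (ZMod ℓ)
      ((fun g => (β g).map (PadicInt.toZMod : ℤ_[ℓ] →+* ZMod ℓ)) '' (U : Set G)),
      ∃ x ∈ N', x.map (PadicInt.toZMod : ℤ_[ℓ] →+* ZMod ℓ) = y := by
    intro y hy
    induction hy using Submodule.span_induction with
    | mem y hy =>
      obtain ⟨g, hg, rfl⟩ := hy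
      exact ⟨β g, Submodule.subset_span ⟨g, hg, rfl⟩, rfl⟩
    | zero => exact ⟨0, Submodule.zero_mem _, by rw [Matrix.map_zero _ (map_zero _)]⟩
    | add y y' _ _ hy hy' =>
      obtain ⟨x, hx, rfl⟩ := hy
      obtain ⟨x', hx', rfl⟩ := hy'
      exact ⟨x + x', Submodule.add_mem _ hx hx', Matrix.map_add _ (map_add _) _ _⟩
    | smul c y _ hy =>
      obtain ⟨x, hx, rfl⟩ := hy
      obtain ⟨c', rfl⟩ := ZMod.ringHom_surjective (PadicInt.toZMod : ℤ_[ℓ] →+* ZMod ℓ) c
      refine ⟨c' • x, Submodule.smul_mem _ _ hx, ?_⟩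
      ext i j
      simp
  have hle : (⊤ : Submodule ℤ_[ℓ] (Matrix (Fin N) (Fin N) ℤ_[ℓ])) ≤ N' := by
    refine Submodule.le_of_le_smul_of_le_jacobson_bot (I := I) ?_
      (IsLocalRing.maximalIdeal_le_jacobson ⊥) ?_
    · exact Module.Finite.fg_top
    · rintro M -
      obtain ⟨x, hx, hxM⟩ := hlift (M.map (PadicInt.toZMod : ℤ_[ℓ] →+* ZMod ℓ))
        (by rw [h]; exact Submodule.mem_top)
      have h1 : M - x ∈ I • (⊤ : Submodule ℤ_[ℓ] (Matrix (Fin N) (Fin N) ℤ_[ℓ])) := by
        have h2 : M - x = ∑ i, ∑ j, (M - x) i j • Matrix.single i j (1 : ℤ_[ℓ]) := by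
          conv_lhs => rw [matrix_eq_sum_single (M - x)]
          refine Finset.sum_congr rfl fun i _ => Finset.sum_congr rfl fun j _ => ?_
          rw [smul_single, smul_eq_mul, mul_one]
        rw [h2]
        refine Submodule.sum_mem _ fun i _ => Submodule.sum_mem _ fun j _ => ?_
        refine Submodule.smul_mem_smul ?_ Submodule.mem_top
        rw [hI, ← PadicInt.ker_toZMod, RingHom.mem_ker, Matrix.sub_apply, map_sub, sub_eq_zero]
        have h3 := congrFun (congrFun hxM i) j
        simpa using h3.symm
      have h4 : M = x + (M - x) := by abel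
      rw [h4]
      exact Submodule.add_mem_sup hx h1
  exact top_le_iff.1 hle

end nak

end Pool.Agent.N144.IR
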