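import Pool.Agent.N144.IR.Res

/-!
# Integral orthogonal systems of odd rank: from one prime to 100 percent of the primes
-/

set_option autoImplicit false
set_option linter.style.haveILetI false
set_option linter.unusedSectionVars false

open Matrix Polynomial Filter Topology NumberField IsDedekindDomain
open Pool.Agent.Y142.ZO Pool.Agent.Y142.ZI
open Pool.Agent.R932 Pool.Agent.R932.OP

namespace Pool.Agent.N144.IR

section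
variable {K : Type} [Field K] [NumberField K] {N : ℕ} {G : Type} [Group G] {s : GK K →* G}
  {S : Set (HeightOneSpectrum (𝓞 K))} {P : HeightOneSpectrum (𝓞 K) → ℚ[X]}

/-- the matrices of the subgroups of index at most `d` span over the `ℓ`-adic integers -/
def SpanFull (ℓ d : ℕ) [Fact ℓ.Prime] (β : G →* Matrix (Fin N) (Fin N) ℤ_[ℓ]) : Prop :=
  ∀ U : Subgroup G, U.index ≠ 0 → U.index ≤ d → Submodule.span ℤ_[ℓ] (β '' (U : Set G)) = ⊤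

theorem spanFull_of {ℓ d : ℕ} [Fact ℓ.Prime] {β : G →* Matrix (Fin N) (Fin N) ℤ_[ℓ]} (hN : 0 < N)
    (h1 : IrrMod ℓ d β) (h2 : ScalMod ℓ d β) : SpanFull ℓ d β := by
  intro U hU0 hUd
  refine span_padic β U ?_
  exact span_top (((PadicInt.toZMod : ℤ_[ℓ] →+* ZMod ℓ).mapMatrix :
    Matrix (Fin N) (Fin N) ℤ_[ℓ] →+* _).toMonoidHom.comp β) U
    (fun W hW => h1 U W hU0 hUd hW) (fun A hA => h2 U hU0 hUd A hA) hN

/-- **integral orthogonal systems of odd rank: from one prime to 100 percent of the primes** -/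
theorem res_one (hodd : Odd N) (hN : 5 ≤ N) (hS : S.Finite)
    (β : ∀ (ℓ : ℕ) [Fact ℓ.Prime], G →* Matrix (Fin N) (Fin N) ℤ_[ℓ])
    (B : ∀ (ℓ : ℕ) [Fact ℓ.Prime], Matrix (Fin N) (Fin N) ℤ_[ℓ])
    (hsys : ∀ (ℓ : ℕ) [Fact ℓ.Prime], IntegralSys K N ℓ s (β ℓ) (B ℓ) S P)
    (hun : ∃ b : ℕ, ∀ (ℓ : ℕ) [Fact ℓ.Prime], b < ℓ → IsUnit (B ℓ).det)
    (ℓ₀ : ℕ) [hℓ₀ : Fact ℓ₀.Prime] (hdvd : ¬ ℓ₀ ∣ N - 1)
    (hfull : FullLie ℓ₀ (genRep ℓ₀ ((β ℓ₀).comp s)) (genM ℓ₀ (B ℓ₀))) (d : ℕ) :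
    Y142.ZI.DensityZero {ℓ | ∃ _ : Fact ℓ.Prime,
      ¬ (FullLie ℓ (genRep ℓ ((β ℓ).comp s)) (genM ℓ (B ℓ)) ∧ SpanFull ℓ d (β ℓ))} := by
  classical
  have hfl := orth_one (S := S) (P := P) hodd (by omega) hS
    (fun ℓ _ => genRep ℓ ((β ℓ).comp s)) (fun ℓ _ => genM ℓ (B ℓ))
    (fun ℓ _ => orthogonal_of (hsys ℓ)) ℓ₀ hdvd hfull
  have hinf : ∀ b : ℕ, ∃ ℓ : ℕ, b < ℓ ∧ ∃ _ : Fact ℓ.Prime,
      FullLie ℓ (genRep ℓ ((β ℓ).comp s)) (genM ℓ (B ℓ)) := by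
    intro b
    obtain ⟨ℓ, h1, h2, h3⟩ := exists_prime_of_density hfl b
    haveI : Fact ℓ.Prime := ⟨h2⟩
    refine ⟨ℓ, h1, inferInstance, ?_⟩
    by_contra h4
    exact h3 ⟨inferInstance, h4⟩
  obtain ⟨m, hm⟩ : ∃ m, N = 2 * m + 3 := by
    obtain ⟨k, hk⟩ := hodd
    exact ⟨k - 1, by omega⟩
  subst hm
  have hdvd' : ¬ ℓ₀ ∣ 2 * (m + 1) := by
    rw [show 2 * m + 3 - 1 = 2 * (m + 1) by omega] at hdvd
    exact hdvd
  have hALG : Y142.ZO.S_ALG := Y142.ZO.alg_main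
  have hISO : Y142.ZO.S_ISO := Y337.ZO.iso_t
  have hLINE : Y142.ZO.S_LINE := Y337.ZO.line_t
  have hTAN : Y142.ZO.S_TAN := Y708.ZO.t
  have hLOG : Y142.ZO.S_LOG := Y497.ZO.log
  have hEXP : Y142.ZO.S_EXP := Y497.ZO.exp
  have hPOW : Y142.ZO.S_POW := Y497.ZO.pow
  have hSPEC : Y142.ZO.S_SPEC := Y96.ZO.t
  have hAPP : Y142.ZO.S_APP := Y815.ZO.t Y337.ZO.det_t Y337.ZO.qz_t hLOG
  have hFROB : Y142.ZO.S_FROB := Y405.ZO.t
  have hBAD : Y142.ZO.S_BAD := Y458.ZO.bad hISO hLINE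
  have hVAL : Y142.ZO.S_VAL := Y405.ZO.t1
  have hVAL2 : Y142.ZO.S_VAL2 := Y405.ZO.t2
  have hDENS : Y142.ZO.S_DENS := Y394.ZO.t1
  have hINF : Y142.ZO.S_INF := Y394.ZO.t2
  have hINT : Y142.ZI.S_INT := Y484.ZI.t1
  have hRES : Y142.ZI.S_RES := Y484.ZI.t2
  have hCOMP : Y142.ZI.S_COMP := Y547.ZI.t2
  have hCHEB : Y142.ZI.S_CHEB := Y726.ZI.t1
  have hPOS : Y142.ZI.S_POS := Y726.ZI.t2 hCHEB
  have hDENS2 : Y142.ZI.S_DENS2 := Y681.ZI.t hCHEB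
  have hMULTI : Y142.ZI.S_MULTI := Y537.ZI.t
  have hIRR : Y142.ZI.S_IRR := Y971.ZI.t
  have hCHAR : Y142.ZI.S_CHAR := Y949.ZI.t
  have hBADRED : Y142.ZI.S_BADRED := Y379.ZI.t
  have hTYPS : Y142.ZI.S_TYPS := typs clq hCOMP
  have hTYPT : Y142.ZI.S_TYPT := typt clq hCOMP
  have hTYPU : Y142.ZI.S_TYPU := Y405.ZI.t clq hCOMP
  have h1 := irr_mod_one hALG hISO hLINE hTAN hLOG hEXP hPOW hSPEC hAPP hFROB hBAD
    hVAL hVAL2 hDENS hINF hBADRED hPOS hIRR hINT hDENS2 hMULTI hCHAR gen hRES unr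
    R499.OP.form1 R499.OP.form2 typc hTYPS hTYPT hTYPU typx nt (by omega : 0 < m) hS β B hsys hun
    ℓ₀ hdvd' hfull d
  obtain ⟨v, Q, hnice, -, -⟩ := key_nice hFROB hMULTI hCHAR gen hRES unr hINT
    R499.OP.form1 R499.OP.form2 typc hTYPS hTYPT hTYPU hS
    (fun ℓ _ => genRep ℓ ((β ℓ).comp s)) (fun ℓ _ => genM ℓ (B ℓ))
    (fun ℓ _ => orthogonal_of (hsys ℓ)) hinf ⊥ inferInstance
  obtain ⟨b, hb⟩ := place_scal (N := 2 * m + 3) (s := s) hnice d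
  refine Y142.ZI.DensityZero.mono ((h1.union hfl).union (density_le b)) ?_
  rintro ℓ ⟨hp, hno⟩
  by_cases h2 : ℓ ≤ b
  · exact Or.inr h2
  left
  by_cases h3 : IrrMod ℓ d (β ℓ)
  · right
    refine ⟨hp, fun h4 => hno ⟨h4, spanFull_of (by omega) h3 ?_⟩⟩
    exact hb ℓ (not_le.1 h2) hp (β ℓ) (B ℓ) (hsys ℓ) h3
  · exact Or.inl ⟨hp, h3⟩

end

end Pool.Agent.N144.IR
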