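import Pool.Agent.N144.IR.One

/-!
# Open images of integral representations
-/

set_option autoImplicit false
set_option linter.style.haveILetI false
set_option linter.unusedSectionVars false

open Matrix Polynomial Filter Topology NumberField IsDedekindDomain
open Pool.Agent.Y142.ZO Pool.Agent.Y142.ZI
open Pool.Agent.R932 Pool.Agent.R932.OP

namespace Pool.Agent.N144.IR

section
variable {ℓ : ℕ} [Fact ℓ.Prime] {N : ℕ} {Γ G : Type} [Group Γ] [Group G]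

/-- the image of `Γ` contains all isometries of the lattice which are congruent to `1` modulo a power
of `ℓ` -/
def OpenInt (s : Γ →* G) (β : G →* Matrix (Fin N) (Fin N) ℤ_[ℓ])
    (B : Matrix (Fin N) (Fin N) ℤ_[ℓ]) : Prop :=
  ∃ n : ℕ, ∀ g : Matrix (Fin N) (Fin N) ℤ_[ℓ], gᵀ * B * g = B →
    (∀ i j, (ℓ : ℤ_[ℓ]) ^ n ∣ (g - 1) i j) → ∃ σ : Γ, β (s σ) = g

theorem genM_inj : Function.Injective (genM ℓ : Matrix (Fin N) (Fin N) ℤ_[ℓ] → _) := by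
  intro A A' h
  refine Matrix.ext fun i j => ?_
  have h1 : algebraMap ℤ_[ℓ] ℚ_[ℓ] (A i j) = algebraMap ℤ_[ℓ] ℚ_[ℓ] (A' i j) :=
    congrFun (congrFun h i) j
  exact IsFractionRing.injective ℤ_[ℓ] ℚ_[ℓ] h1

theorem isom_genM (B g : Matrix (Fin N) (Fin N) ℤ_[ℓ]) :
    Isom (genM ℓ B) (genM ℓ g) ↔ gᵀ * B * g = B := by
  unfold Isom
  have h1 : (genM ℓ g)ᵀ * genM ℓ B * genM ℓ g = genM ℓ (gᵀ * B * g) := by
    unfold genM
    rw [Matrix.map_mul, Matrix.map_mul, Matrix.transpose_map]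
  rw [h1]
  exact genM_inj.eq_iff

theorem genM_sub_one (g : Matrix (Fin N) (Fin N) ℤ_[ℓ]) (i j : Fin N) :
    (genM ℓ g - 1) i j = (((g - 1) i j : ℤ_[ℓ]) : ℚ_[ℓ]) := by
  unfold genM
  rw [Matrix.sub_apply, Matrix.sub_apply, Matrix.map_apply, PadicInt.coe_sub]
  congr 1
  by_cases h : i = j
  · subst h
    rw [Matrix.one_apply_eq, Matrix.one_apply_eq, PadicInt.coe_one]
  · rw [Matrix.one_apply_ne h, Matrix.one_apply_ne h, PadicInt.coe_zero]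

theorem openInt_iff (s : Γ →* G) (β : G →* Matrix (Fin N) (Fin N) ℤ_[ℓ])
    (B : Matrix (Fin N) (Fin N) ℤ_[ℓ]) :
    OpenInt s β B ↔ OpenImage ℓ (genRep ℓ (β.comp s)) (genM ℓ B) := by
  have hl1 : (1 : ℝ) < ℓ := by exact_mod_cast (Fact.out : ℓ.Prime).one_lt
  have hl0 : (0 : ℝ) < ℓ := by linarith
  have hdvd : ∀ (n : ℕ) (x : ℤ_[ℓ]), (ℓ : ℤ_[ℓ]) ^ n ∣ x ↔ ‖x‖ ≤ (ℓ : ℝ) ^ (-n : ℤ) := by
    intro n x
    rw [PadicInt.norm_le_pow_iff_mem_span_pow, Ideal.mem_span_singleton]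
  constructor
  · rintro ⟨n, hn⟩
    refine ⟨(ℓ : ℝ) ^ (-n : ℤ), by positivity, fun g hg hg1 => ?_⟩
    have hle : (ℓ : ℝ) ^ (-n : ℤ) ≤ 1 := by
      rw [_root_.zpow_neg, zpow_natCast]
      exact inv_le_one_of_one_le₀ (one_le_pow₀ hl1.le)
    -- `g` is integral
    have hint : ∀ i j, ‖g i j‖ ≤ 1 := by
      intro i j
      have h1 : g i j = (g - 1) i j + (1 : Matrix (Fin N) (Fin N) ℚ_[ℓ]) i j := by
        rw [Matrix.sub_apply, sub_add_cancel]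
      rw [h1]
      refine (Padic.nonarchimedean _ _).trans (max_le ((hg1 i j).le.trans hle) ?_)
      by_cases h : i = j
      · subst h
        rw [Matrix.one_apply_eq, norm_one]
      · rw [Matrix.one_apply_ne h, norm_zero]
        exact zero_le_one
    let g' : Matrix (Fin N) (Fin N) ℤ_[ℓ] := Matrix.of fun i j => ⟨g i j, hint i j⟩
    have hg' : genM ℓ g' = g := by
      ext i j
      rfl
    obtain ⟨σ, hσ⟩ := hn g' ((isom_genM B g').1 (by rw [hg']; exact hg)) (fun i j => by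
      have h2 := (hg1 i j).le
      rw [← hg', genM_sub_one] at h2
      exact (hdvd _ _).2 h2)
    exact ⟨σ, by rw [genRep_apply, MonoidHom.comp_apply, hσ, hg']⟩
  · rintro ⟨ε, hε, hop⟩
    obtain ⟨n, hn⟩ : ∃ n : ℕ, (ℓ : ℝ) ^ (-n : ℤ) < ε := PadicInt.exists_pow_neg_lt ℓ hε
    refine ⟨n, fun g hg hg1 => ?_⟩
    obtain ⟨σ, hσ⟩ := hop (genM ℓ g) ((isom_genM B g).2 hg) (fun i j => by
      rw [genM_sub_one]
      exact ((hdvd _ _).1 (hg1 i j)).trans_lt hn)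
    exact ⟨σ, genM_inj hσ⟩

end

section
variable {K : Type} [Field K] [NumberField K] {N : ℕ} {G : Type} [Group G] {s : GK K →* G}
  {S : Set (HeightOneSpectrum (𝓞 K))} {P : HeightOneSpectrum (𝓞 K) → ℚ[X]}

/-- **integral orthogonal systems of odd rank: open and spanning images at 100 percent of the
primes** -/
theorem open_one (hodd : Odd N) (hN : 5 ≤ N) (hS : S.Finite)
    (β : ∀ (ℓ : ℕ) [Fact ℓ.Prime], G →* Matrix (Fin N) (Fin N) ℤ_[ℓ])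
    (B : ∀ (ℓ : ℕ) [Fact ℓ.Prime], Matrix (Fin N) (Fin N) ℤ_[ℓ])
    (hsys : ∀ (ℓ : ℕ) [Fact ℓ.Prime], IntegralSys K N ℓ s (β ℓ) (B ℓ) S P)
    (hun : ∃ b : ℕ, ∀ (ℓ : ℕ) [Fact ℓ.Prime], b < ℓ → IsUnit (B ℓ).det)
    (ℓ₀ : ℕ) [hℓ₀ : Fact ℓ₀.Prime] (hdvd : ¬ ℓ₀ ∣ N - 1)
    (hfull : OpenInt s (β ℓ₀) (B ℓ₀)) (d : ℕ) :
    Y142.ZI.DensityZero {ℓ | ∃ _ : Fact ℓ.Prime,
      ¬ (OpenInt s (β ℓ) (B ℓ) ∧ SpanFull ℓ d (β ℓ))} := by
  have h0 : FullLie ℓ₀ (genRep ℓ₀ ((β ℓ₀).comp s)) (genM ℓ₀ (B ℓ₀)) := by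
    have h1 := orthogonal_of (hsys ℓ₀)
    exact cay ℓ₀ _ _ _ _ h1.2.1 h1.2.2.1 ((openInt_iff s _ _).1 hfull)
  refine Y142.ZI.DensityZero.mono (res_one hodd hN hS β B hsys hun ℓ₀ hdvd h0 d) ?_
  rintro ℓ ⟨hp, hno⟩
  refine ⟨hp, fun h => hno ⟨(openInt_iff s _ _).2 ?_, h.2⟩⟩
  have h1 := orthogonal_of (hsys ℓ)
  exact Y884.ZI.t ℓ N (GK K) _ h1.1 _ h1.2.1 h1.2.2.1 h1.2.2.2.1 h.1

end

end Pool.Agent.N144.IR
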