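import Pool.Agent.R932.OP.OrthA
import Pool.Agent.N144.IR.Burn

/-!
# The integral representations at 100 percent of the primes: the group spans the matrix algebra
-/

set_option autoImplicit false
set_option linter.style.haveILetI false
set_option linter.unusedSectionVars false

open Matrix Polynomial Filter Topology NumberField IsDedekindDomain
open Pool.Agent.Y142.ZO Pool.Agent.Y142.ZI
open Pool.Agent.R932 Pool.Agent.R932.OP
open Pool.Agent.Y142.ZS (NiceP)

namespace Pool.Agent.N144.IR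

section line
variable {F : Type} [Field F] {N : ℕ}

/-- the space of the fixed vectors of a matrix with separable characteristic polynomial is at most
a line -/
theorem fixed_line {g : Matrix (Fin N) (Fin N) F} (hsep : g.charpoly.Separable)
    {x y : Fin N → F} (hx0 : x ≠ 0) (hx : g *ᵥ x = x) (hy : g *ᵥ y = y) : ∃ c : F, y = c • x := by
  classical
  set φ : Module.End F (Fin N → F) := toLin' g with hφ
  have h1 : Module.finrank F (φ.maxGenEigenspace 1) ≤ 1 := by
    rw [LinearMap.finrank_maxGenEigenspace_eq, hφ, charpoly_toLin']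
    exact Polynomial.rootMultiplicity_le_one_of_separable hsep 1
  have hmem : ∀ z : Fin N → F, g *ᵥ z = z → z ∈ φ.maxGenEigenspace 1 := by
    intro z hz
    refine Module.End.eigenspace_le_maxGenEigenspace ?_
    rw [Module.End.mem_eigenspace_iff, one_smul, hφ, toLin'_apply, hz]
  have h2 := finrank_le_one_iff.1 h1
  obtain ⟨v, hv⟩ := h2
  obtain ⟨a, ha⟩ := hv ⟨x, hmem x hx⟩
  obtain ⟨b, hb⟩ := hv ⟨y, hmem y hy⟩
  have ha' : a • v.1 = x := congrArg Subtype.val ha
  have hb' : b • v.1 = y := congrArg Subtype.val hb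
  have ha0 : a ≠ 0 := by
    rintro rfl
    exact hx0 (by rw [← ha', zero_smul])
  refine ⟨b * a⁻¹, ?_⟩
  rw [← hb', ← ha', smul_smul, mul_assoc, inv_mul_cancel₀ ha0, mul_one]

/-- A matrix which commutes with the power of `g` maps the fixed vector of `g` to a multiple, if all
subspaces which are stable under the power are stable. -/
theorem eigen_of_comm {g h A : Matrix (Fin N) (Fin N) F} (hsep : g.charpoly.Separable)
    (hst : ∀ W : Submodule F (Fin N → F), (∀ w ∈ W, h *ᵥ w ∈ W) → ∀ w ∈ W, g *ᵥ w ∈ W)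
    {w : Fin N → F} (hw0 : w ≠ 0) (hgw : g *ᵥ w = w) (hhw : h *ᵥ w = w) (hA : A * h = h * A) :
    ∃ c : F, A *ᵥ w = c • w := by
  have hhA : h *ᵥ (A *ᵥ w) = A *ᵥ w := by
    rw [mulVec_mulVec, ← hA, ← mulVec_mulVec, hhw]
  have hspan : ∀ x : Fin N → F, h *ᵥ x = x → ∃ c : F, g *ᵥ x = c • x := by
    intro x hx
    have h1 := hst (Submodule.span F {x}) (fun y hy => by
      obtain ⟨a, rfl⟩ := Submodule.mem_span_singleton.1 hy
      rw [mulVec_smul, hx]
      exact hy) x (Submodule.mem_span_singleton_self x)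
    obtain ⟨c, hc⟩ := Submodule.mem_span_singleton.1 h1
    exact ⟨c, hc.symm⟩
  obtain ⟨c', hc'⟩ := hspan _ hhA
  obtain ⟨c, hc⟩ := hspan (w + A *ᵥ w) (by rw [mulVec_add, hhw, hhA])
  rw [mulVec_add, hgw, hc', smul_add] at hc
  by_cases hcc : c' = c
  · rw [hcc, add_left_inj] at hc
    have h1 : (1 - c) • w = 0 := by rw [sub_smul, one_smul, ← hc, sub_self]
    have h2 : c = 1 := by
      rcases smul_eq_zero.1 h1 with h | h
      · exact (sub_eq_zero.1 h).symm
      · exact absurd h hw0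
    rw [hcc, h2, one_smul] at hc'
    exact fixed_line hsep hw0 hgw hc'
  · refine ⟨(c' - c)⁻¹ * (c - 1), ?_⟩
    have h1 : (c' - c) • (A *ᵥ w) = (c - 1) • w := by
      rw [sub_smul, sub_smul, one_smul]
      have h2 : c' • (A *ᵥ w) = c • w + c • (A *ᵥ w) - w := by
        rw [← hc]; abel
      rw [h2]
      abel
    rw [← smul_smul, ← h1, smul_smul, inv_mul_cancel₀ (sub_ne_zero.2 hcc), one_smul]

end line

section
variable {K : Type} [Field K] [NumberField K] {N : ℕ} {G : Type} [Group G] {s : GK K →* G}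
  {S : Set (HeightOneSpectrum (𝓞 K))} {P : HeightOneSpectrum (𝓞 K) → ℚ[X]}

/-- the matrices which commute modulo `ℓ` with a subgroup of index at most `d` are scalar -/
def ScalMod (ℓ d : ℕ) [Fact ℓ.Prime] (β : G →* Matrix (Fin N) (Fin N) ℤ_[ℓ]) : Prop :=
  ∀ U : Subgroup G, U.index ≠ 0 → U.index ≤ d → ∀ A : Matrix (Fin N) (Fin N) (ZMod ℓ),
    (∀ σ ∈ U, A * redM ℓ (β σ) = redM ℓ (β σ) * A) →
      ∃ c : ZMod ℓ, A = c • (1 : Matrix (Fin N) (Fin N) (ZMod ℓ))

/-- A place at which `1` is a Frobenius eigenvalue: irreducibility modulo `ℓ` implies that the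
commutants are scalar. -/
theorem place_scal {v : HeightOneSpectrum (𝓞 K)} {Q : ℚ[X]} (hv : NicePlace S P v Q) (d : ℕ) :
    ∃ b : ℕ, ∀ ℓ : ℕ, b < ℓ → ∀ _ : Fact ℓ.Prime,
    ∀ (β : G →* Matrix (Fin N) (Fin N) ℤ_[ℓ]) (B : Matrix (Fin N) (Fin N) ℤ_[ℓ]),
      IntegralSys K N ℓ s β B S P → IrrMod ℓ d β → ScalMod ℓ d β := by
  classical
  have hP := hv.2.1
  obtain ⟨hvS, hm, hs, hd⟩ := niceP_of_nicePlace hv
  obtain ⟨b₁, hb₁⟩ := stable_mod hm hs hd d.factorial (Nat.factorial_pos d)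
  obtain ⟨b₃, hb₃⟩ := sep_mod hs
  refine ⟨max b₁ (max b₃ (Ideal.absNorm v.asIdeal)), fun ℓ hℓ hp β B hsys hirr => ?_⟩
  simp only [max_lt_iff] at hℓ
  obtain ⟨τ₀, hτ₀⟩ := Pool.Agent.W401.Frob.exists_frob v
  obtain ⟨-, -, -, -, h5⟩ := hsys
  have h5' := h5 v hvS (not_mem_of_lt v hp.out hℓ.2.2) τ₀ hτ₀
  have e : (genM ℓ (β (s τ₀⁻¹))).charpoly = (P v).map (algebraMap ℚ ℚ_[ℓ]) := by
    rw [genM, ← h5', ← Matrix.charpoly_map]
  set τ : G := s τ₀⁻¹ with hτ
  set g := redM ℓ (β τ) with hg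
  have hsep : g.charpoly.Separable := hb₃ ℓ hℓ.2.1 hp N _ e
  have hst := hb₁ ℓ hℓ.1 hp N _ e
  -- the eigenvalue `1`
  have hroot : (β τ).charpoly.eval 1 = 0 := by
    have hinj : Function.Injective (algebraMap ℤ_[ℓ] ℚ_[ℓ]) := IsFractionRing.injective _ _
    apply hinj
    rw [map_zero, ← Polynomial.eval_map_apply, map_one, h5', hP, Polynomial.map_mul,
      Polynomial.map_sub, Polynomial.map_X, Polynomial.map_one, Polynomial.eval_mul,
      Polynomial.eval_sub, Polynomial.eval_X, Polynomial.eval_one, sub_self, zero_mul]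
  have hroot' : g.charpoly.IsRoot 1 := by
    have e2 : g.charpoly = (β τ).charpoly.map (PadicInt.toZMod : ℤ_[ℓ] →+* ZMod ℓ) := by
      rw [hg, redM, ← Matrix.charpoly_map]
    have h6 : (β τ).charpoly.IsRoot 1 := hroot
    have h7 := h6.map (f := (PadicInt.toZMod : ℤ_[ℓ] →+* ZMod ℓ))
    rwa [map_one, ← e2] at h7
  obtain ⟨w, hw0, hw⟩ : ∃ w : Fin N → ZMod ℓ, w ≠ 0 ∧ g *ᵥ w = w := by
    have h6 : (toLin' g).charpoly.IsRoot 1 := by rwa [charpoly_toLin']
    have h7 := (Module.End.hasEigenvalue_iff_isRoot_charpoly _ _).2 h6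
    obtain ⟨w, hw⟩ := h7.exists_hasEigenvector
    refine ⟨w, hw.2, ?_⟩
    have h8 := hw.apply_eq_smul
    rwa [toLin'_apply, one_smul] at h8
  intro U hU0 hUd A hA
  obtain ⟨n, hn, hnd, hnU⟩ := Subgroup.exists_pow_mem_of_index_ne_zero hU0 τ
  have hUτ : τ ^ d.factorial ∈ U := by
    obtain ⟨k, hk⟩ := Nat.dvd_factorial hn (hnd.trans hUd)
    rw [hk, pow_mul]
    exact U.pow_mem hnU k
  have hpow : ∀ k : ℕ, g ^ k *ᵥ w = w := by
    intro k
    induction k with
    | zero => rw [pow_zero, one_mulVec]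
    | succ k ih => rw [pow_succ, ← mulVec_mulVec, hw, ih]
  have hA' : A * g ^ d.factorial = g ^ d.factorial * A := by
    have h6 := hA _ hUτ
    rwa [map_pow, redM_pow] at h6
  obtain ⟨c, hc⟩ := eigen_of_comm hsep hst hw0 hw (hpow _) hA'
  -- the eigenspace of `A`
  let W : Submodule (ZMod ℓ) (Fin N → ZMod ℓ) :=
    { carrier := {x | A *ᵥ x = c • x}
      add_mem' := fun {x y} hx hy => by
        rw [Set.mem_setOf_eq] at hx hy ⊢
        rw [mulVec_add, hx, hy, smul_add]
      zero_mem' := by rw [Set.mem_setOf_eq, mulVec_zero, smul_zero]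
      smul_mem' := fun a x hx => by
        rw [Set.mem_setOf_eq] at hx ⊢
        rw [mulVec_smul, hx, smul_comm] }
  have hW := hirr U W hU0 hUd (fun σ hσ x hx => by
    change A *ᵥ (redM ℓ (β σ) *ᵥ x) = c • (redM ℓ (β σ) *ᵥ x)
    have hx' : A *ᵥ x = c • x := hx
    rw [mulVec_mulVec, hA σ hσ, ← mulVec_mulVec, hx', mulVec_smul])
  rcases hW with hW | hW
  · exfalso
    have h6 : w ∈ W := hc
    rw [hW] at h6
    exact hw0 h6
  · refine ⟨c, ?_⟩
    apply Matrix.toLin'.injective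
    refine LinearMap.ext fun x => ?_
    rw [toLin'_apply, toLin'_apply, smul_mulVec, one_mulVec]
    have h6 : x ∈ W := by rw [hW]; exact Submodule.mem_top
    exact h6

/-- a bounded set has density zero -/
theorem density_le (b : ℕ) : Y142.ZI.DensityZero {ℓ : ℕ | ℓ ≤ b} := by
  have h1 : Tendsto (fun n : ℕ => ((b + 1 : ℕ) : ℝ) / (Nat.primeCounting n : ℝ)) atTop (𝓝 0) := by
    refine Tendsto.div_atTop tendsto_const_nhds ?_
    exact tendsto_natCast_atTop_atTop.comp Nat.tendsto_primeCounting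
  refine squeeze_zero (fun n => by positivity) (fun n => ?_) h1
  apply div_le_div_of_nonneg_right _ (Nat.cast_nonneg _)
  have h2 : Nat.card {ℓ : ℕ // ℓ ≤ n ∧ ℓ ∈ {ℓ : ℕ | ℓ ≤ b}} ≤ Nat.card (Fin (b + 1)) :=
    Nat.card_le_card_of_injective (fun x => (⟨x.1, Nat.lt_succ_of_le x.2.2⟩ : Fin (b + 1)))
      (fun x y h => by
        apply Subtype.ext
        exact congrArg (fun z : Fin (b + 1) => z.1) h)
  rw [Nat.card_fin] at h2
  exact_mod_cast h2

/-- Infinitely many primes are outside of a set of density zero. -/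
theorem exists_prime_of_density {A : Set ℕ} (hA : Y142.ZI.DensityZero A) (b : ℕ) :
    ∃ ℓ : ℕ, b < ℓ ∧ ℓ.Prime ∧ ℓ ∉ A := by
  by_contra hcon
  push Not at hcon
  have h1 : Y142.ZI.DensityZero {ℓ : ℕ | ℓ.Prime} := by
    refine Y142.ZI.DensityZero.mono (hA.union (density_le b)) ?_
    intro ℓ hℓ
    by_cases h : b < ℓ
    · exact Or.inl (hcon ℓ h hℓ)
    · exact Or.inr (not_lt.1 h)
  have h2 : Tendsto (fun n : ℕ => (1 : ℝ)) atTop (𝓝 0) := by
    refine Tendsto.congr' ?_ h1
    filter_upwards [eventually_ge_atTop 2] with n hn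
    have h3 : Nat.card {ℓ : ℕ // ℓ ≤ n ∧ ℓ.Prime} = Nat.primeCounting n := by
      rw [Nat.primeCounting, Nat.primeCounting', Nat.count_eq_card_filter_range]
      refine Nat.subtype_card _ fun x => ?_
      simp only [Finset.mem_filter, Finset.mem_range, Nat.lt_succ_iff]
    change (Nat.card {ℓ : ℕ // ℓ ≤ n ∧ ℓ.Prime} : ℝ) / (Nat.primeCounting n : ℝ) = 1
    rw [h3, div_self]
    have h4 : 0 < Nat.primeCounting n := by
      have h5 := Nat.monotone_primeCounting hn
      have h6 : 0 < Nat.primeCounting 2 := by decide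
      omega
    positivity
  have h3 := tendsto_nhds_unique h2 tendsto_const_nhds
  exact zero_ne_one h3

end

end Pool.Agent.N144.IR
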